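import Mathlib
import Pool.Agent.TH407.AR.Defs
set_option autoImplicit false

/-!
# The summation lemma (pointwise form of Marcinkiewicz interpolation)

Part of a project of helper407.
-/

namespace Pool.Agent.TH634.VR

open Pool.Agent.TH407.AR

open MeasureTheory Set Complex
open scoped ENNReal NNReal Real

/-- `w * x ^ p ≤ s` gives `x ≤ (s / w) ^ (1 / p)` -/
lemma le_of_weight {w s p : ℝ} (hw : 0 < w) (hs : 0 < s) (hp : 0 < p) (x : ℝ≥0∞)
    (h : ENNReal.ofReal w * x ^ p ≤ ENNReal.ofReal s) :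
    x ≤ ENNReal.ofReal ((s / w) ^ (1 / p)) := by
  have h1 : x ^ p ≤ ENNReal.ofReal (s / w) := by
    rw [ENNReal.ofReal_div_of_pos hw, ENNReal.le_div_iff_mul_le
      (Or.inl (by simpa using hw)) (Or.inl ENNReal.ofReal_ne_top), mul_comm]
    exact h
  rw [← ENNReal.ofReal_rpow_of_nonneg (by positivity) (by positivity)]
  calc x = (x ^ p) ^ (1 / p) := by
        rw [← ENNReal.rpow_mul, mul_one_div_cancel hp.ne', ENNReal.rpow_one]
    _ ≤ _ := ENNReal.rpow_le_rpow h1 (by positivity)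

lemma tsum_geom {r : ℝ} (h0 : 0 < r) (h1 : r < 1) (k₀ : ℤ) :
    ∑' k : ℤ, ENNReal.ofReal (r ^ (k - k₀).natAbs) ≤ ENNReal.ofReal (2 / (1 - r)) := by
  have e : ∑' k : ℤ, ENNReal.ofReal (r ^ (k - k₀).natAbs) =
      ∑' k : ℤ, ENNReal.ofReal (r ^ k.natAbs) :=
    (Equiv.subRight k₀).tsum_eq (fun k : ℤ => ENNReal.ofReal (r ^ k.natAbs))
  have hg : ∑' n : ℕ, ENNReal.ofReal (r ^ n) = ENNReal.ofReal (1 / (1 - r)) := by
    rw [← ENNReal.ofReal_tsum_of_nonneg (fun n => by positivity)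
      (summable_geometric_of_lt_one h0.le h1), tsum_geometric_of_lt_one h0.le h1, one_div]
  rw [e, tsum_of_nat_of_neg_add_one ENNReal.summable ENNReal.summable]
  have h2 : (2 : ℝ) / (1 - r) = 1 / (1 - r) + 1 / (1 - r) := by ring
  rw [h2, ENNReal.ofReal_add (by have := sub_pos.2 h1; positivity)
    (by have := sub_pos.2 h1; positivity)]
  refine add_le_add (le_of_eq ?_) ?_
  · rw [← hg]
    refine tsum_congr fun n => by simp
  · rw [← hg]
    refine ENNReal.tsum_le_tsum fun n => ENNReal.ofReal_le_ofReal ?_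
    have h3 : (-((n : ℤ) + 1)).natAbs = n + 1 := by omega
    rw [h3]
    exact pow_le_pow_of_le_one h0.le h1.le (Nat.le_succ n)

theorem sum_lemma : SumLemma := by
  intro q₀ q q₁ h0 h01 h12
  have hq0 : 0 < q₀ := by linarith
  have hq : 0 < q := by linarith
  have hq1 : 0 < q₁ := by linarith
  set α : ℝ := (q - q₀) / q₀ with hα
  set β : ℝ := (q₁ - q) / q₁ with hβ
  have hα0 : 0 < α := div_pos (by linarith) hq0
  have hβ0 : 0 < β := div_pos (by linarith) hq1
  set γ : ℝ := min α β with hγ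
  have hγ0 : 0 < γ := lt_min hα0 hβ0
  set r : ℝ := (2 : ℝ) ^ (-γ) with hr
  have hr0 : 0 < r := by positivity
  have hr1 : r < 1 := Real.rpow_lt_one_of_one_lt_of_neg one_lt_two (by linarith)
  set A : ℝ := (2 : ℝ) ^ α * (2 / (1 - r)) with hA
  have hA0 : 0 < A := by
    have := sub_pos.2 hr1
    positivity
  refine ⟨(A ^ q).toNNReal + 1, fun F => ?_⟩
  set S : ℝ≥0∞ := ∑' k : ℤ, ENNReal.ofReal ((2 : ℝ) ^ (k * (q - q₀))) * F k ^ q₀ +
      ∑' k : ℤ, ENNReal.ofReal ((2 : ℝ) ^ (-(k * (q₁ - q)))) * F k ^ q₁ with hS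
  have t0 : ∀ k : ℤ, ENNReal.ofReal ((2 : ℝ) ^ (k * (q - q₀))) * F k ^ q₀ ≤ S := fun k =>
    (ENNReal.le_tsum k).trans (le_add_right le_rfl)
  have t1 : ∀ k : ℤ, ENNReal.ofReal ((2 : ℝ) ^ (-(k * (q₁ - q)))) * F k ^ q₁ ≤ S := fun k =>
    (ENNReal.le_tsum k).trans (le_add_left le_rfl)
  rcases eq_or_ne S ∞ with hSt | hSt
  · rw [hSt, ENNReal.mul_top (by positivity)]
    exact le_top
  rcases eq_or_ne S 0 with hS0 | hS0
  · have hF : ∀ k, F k = 0 := by
      intro k
      have h1 := t0 k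
      rw [hS0, nonpos_iff_eq_zero, mul_eq_zero] at h1
      rcases h1 with h1 | h1
      · exfalso
        have : (0 : ℝ) < (2 : ℝ) ^ (k * (q - q₀)) := by positivity
        exact absurd (ENNReal.ofReal_eq_zero.1 h1) (not_le.2 this)
      · exact (ENNReal.rpow_eq_zero_iff_of_pos hq0).1 h1
    simp only [hF, tsum_zero]
    rw [ENNReal.zero_rpow_of_pos hq]
    exact bot_le
  have hs : 0 < S.toReal := ENNReal.toReal_pos hS0 hSt
  set s : ℝ := S.toReal with hsd
  have hSs : S = ENNReal.ofReal s := (ENNReal.ofReal_toReal hSt).symm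
  obtain ⟨k₀, hk1, hk2⟩ := exists_mem_Ico_zpow (x := s ^ (1 / q)) (y := (2 : ℝ))
    (by positivity) one_lt_two
  have hk1' : (2 : ℝ) ^ (k₀ : ℝ) ≤ s ^ (1 / q) := by
    rw [Real.rpow_intCast]; exact hk1
  have hk2' : s ^ (1 / q) < (2 : ℝ) ^ ((k₀ : ℝ) + 1) := by
    have : (2 : ℝ) ^ ((k₀ : ℝ) + 1) = (2 : ℝ) ^ (k₀ + 1) := by
      rw [← Real.rpow_intCast]; push_cast; rfl
    rw [this]; exact hk2
  -- the pointwise bound
  have main : ∀ k : ℤ, F k ≤
      ENNReal.ofReal ((2 : ℝ) ^ α * s ^ (1 / q)) * ENNReal.ofReal (r ^ (k - k₀).natAbs) := by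
    intro k
    rw [← ENNReal.ofReal_mul (by positivity)]
    have hrn : r ^ (k - k₀).natAbs = (2 : ℝ) ^ (-γ * |(k : ℝ) - k₀|) := by
      rw [hr, ← Real.rpow_natCast, ← Real.rpow_mul (by norm_num)]
      congr 2
      rw [Nat.cast_natAbs]
      push_cast
      rfl
    rw [hrn]
    rcases le_or_gt k₀ k with hk | hk
    · have hkR : (k₀ : ℝ) ≤ k := by exact_mod_cast hk
      have h3 := le_of_weight (w := (2 : ℝ) ^ (k * (q - q₀))) (by positivity) hs hq0 (F k)
        (by rw [← hSs]; exact t0 k)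
      refine h3.trans (ENNReal.ofReal_le_ofReal ?_)
      rw [Real.div_rpow hs.le (by positivity), ← Real.rpow_mul (by norm_num)]
      have e1 : (k : ℝ) * (q - q₀) * (1 / q₀) = k * α := by rw [hα]; ring
      rw [e1]
      -- s^(1/q0) / 2^(kα) ≤ 2^α s^(1/q) 2^(-γ |k-k0|)
      have e2 : s ^ (1 / q₀) = s ^ (1 / q) * (s ^ (1 / q)) ^ α := by
        rw [← Real.rpow_mul hs.le, ← Real.rpow_add hs]
        congr 1
        rw [hα]
        field_simp
        ring
      have e3 : (s ^ (1 / q)) ^ α ≤ (2 : ℝ) ^ (((k₀ : ℝ) + 1) * α) := by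
        rw [Real.rpow_mul (by norm_num)]
        exact Real.rpow_le_rpow (by positivity) hk2'.le hα0.le
      rw [div_le_iff₀ (by positivity), e2]
      calc s ^ (1 / q) * (s ^ (1 / q)) ^ α
          ≤ s ^ (1 / q) * (2 : ℝ) ^ (((k₀ : ℝ) + 1) * α) := by gcongr
        _ ≤ s ^ (1 / q) * (2 : ℝ) ^ (α + -γ * |(k : ℝ) - k₀| + k * α) := by
            gcongr
            · norm_num
            · rw [abs_of_nonneg (by linarith)]
              have : γ ≤ α := min_le_left _ _
              nlinarith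
        _ = _ := by
            rw [Real.rpow_add (by norm_num), Real.rpow_add (by norm_num)]
            ring
    · have hkR : (k : ℝ) < k₀ := by exact_mod_cast hk
      have h3 := le_of_weight (w := (2 : ℝ) ^ (-(k * (q₁ - q)))) (by positivity) hs hq1 (F k)
        (by rw [← hSs]; exact t1 k)
      refine h3.trans (ENNReal.ofReal_le_ofReal ?_)
      rw [Real.div_rpow hs.le (by positivity), ← Real.rpow_mul (by norm_num)]
      have e1 : -((k : ℝ) * (q₁ - q)) * (1 / q₁) = -(k * β) := by rw [hβ]; ring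
      rw [e1]
      have e2 : s ^ (1 / q₁) * (s ^ (1 / q)) ^ β = s ^ (1 / q) := by
        rw [← Real.rpow_mul hs.le, ← Real.rpow_add hs]
        congr 1
        rw [hβ]
        field_simp
        ring
      have e3 : (2 : ℝ) ^ ((k₀ : ℝ) * β) ≤ (s ^ (1 / q)) ^ β := by
        rw [Real.rpow_mul (by norm_num)]
        exact Real.rpow_le_rpow (by positivity) hk1' hβ0.le
      rw [div_le_iff₀ (by positivity)]
      have h4 : s ^ (1 / q₁) * (2 : ℝ) ^ ((k₀ : ℝ) * β) ≤ s ^ (1 / q) := by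
        calc s ^ (1 / q₁) * (2 : ℝ) ^ ((k₀ : ℝ) * β) ≤ s ^ (1 / q₁) * (s ^ (1 / q)) ^ β := by
              gcongr
          _ = s ^ (1 / q) := e2
      have h5 : s ^ (1 / q₁) ≤ s ^ (1 / q) * (2 : ℝ) ^ (-((k₀ : ℝ) * β)) := by
        rw [Real.rpow_neg (by norm_num), ← div_eq_mul_inv, le_div_iff₀ (by positivity)]
        exact h4
      refine h5.trans ?_
      calc s ^ (1 / q) * (2 : ℝ) ^ (-((k₀ : ℝ) * β))
          ≤ s ^ (1 / q) * (2 : ℝ) ^ (α + -γ * |(k : ℝ) - k₀| + -(k * β)) := by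
            gcongr
            · norm_num
            · rw [abs_of_neg (by linarith)]
              have : γ ≤ β := min_le_right _ _
              nlinarith
        _ = _ := by
            rw [Real.rpow_add (by norm_num), Real.rpow_add (by norm_num)]
            ring
  have h6 : ∑' k : ℤ, F k ≤ ENNReal.ofReal (A * s ^ (1 / q)) := by
    calc ∑' k : ℤ, F k ≤ ∑' k : ℤ, ENNReal.ofReal ((2 : ℝ) ^ α * s ^ (1 / q)) *
          ENNReal.ofReal (r ^ (k - k₀).natAbs) := ENNReal.tsum_le_tsum main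
      _ = ENNReal.ofReal ((2 : ℝ) ^ α * s ^ (1 / q)) *
          ∑' k : ℤ, ENNReal.ofReal (r ^ (k - k₀).natAbs) := ENNReal.tsum_mul_left
      _ ≤ ENNReal.ofReal ((2 : ℝ) ^ α * s ^ (1 / q)) * ENNReal.ofReal (2 / (1 - r)) := by
          gcongr
          exact tsum_geom hr0 hr1 k₀
      _ = ENNReal.ofReal (A * s ^ (1 / q)) := by
          rw [← ENNReal.ofReal_mul (by positivity), hA]
          congr 1
          ring
  calc (∑' k : ℤ, F k) ^ q ≤ (ENNReal.ofReal (A * s ^ (1 / q))) ^ q :=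
        ENNReal.rpow_le_rpow h6 hq.le
    _ = ENNReal.ofReal (A ^ q * s) := by
        rw [ENNReal.ofReal_rpow_of_nonneg (by positivity) hq.le,
          Real.mul_rpow hA0.le (by positivity), ← Real.rpow_mul hs.le, one_div_mul_cancel hq.ne',
          Real.rpow_one]
    _ = ((A ^ q).toNNReal : ℝ≥0∞) * S := by
        rw [ENNReal.ofReal_mul (by positivity), hSs]
        rfl
    _ ≤ (((A ^ q).toNNReal + 1 : ℝ≥0) : ℝ≥0∞) * S := by
        gcongr
        simp

end Pool.Agent.TH634.VR
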