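import Mathlib
import Pool.Agent.TH407.AR.Defs
set_option autoImplicit false

/-!
# Bounded variation controls the modulus of continuity in `L¹`

Part of a project of helper407.
-/

namespace Pool.Agent.TH634.VR

open Pool.Agent.TH407.AR

open MeasureTheory Set Complex
open scoped ENNReal NNReal Real

lemma sum_int_le (φ : ℝ → ℂ) {h : ℝ} (hh : 0 < h) (s : ℝ) :
    ∑' n : ℤ, ‖φ (s + n • h + h) - φ (s + n • h)‖ₑ ≤ eVariationOn φ univ := by
  refine ENNReal.summable.tsum_le_of_sum_le fun F => ?_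
  obtain ⟨N, hN⟩ : ∃ N : ℕ, F ⊆ Finset.Ico (-(N : ℤ)) N := by
    refine ⟨∑ n ∈ F, (n.natAbs + 1), fun n hn => ?_⟩
    have h1 : n.natAbs + 1 ≤ ∑ m ∈ F, (m.natAbs + 1) :=
      Finset.single_le_sum (f := fun m : ℤ => m.natAbs + 1) (fun _ _ => Nat.zero_le _) hn
    rw [Finset.mem_Ico]
    omega
  have hmono : Monotone (fun i : ℕ => s + ((i : ℤ) - (N : ℤ)) • h) := by
    intro i j hij
    have : ((i : ℤ) - N) ≤ ((j : ℤ) - N) := by omega
    simp only [zsmul_eq_mul]
    have h2 : (((i : ℤ) - N : ℤ) : ℝ) ≤ (((j : ℤ) - N : ℤ) : ℝ) := by exact_mod_cast this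
    nlinarith
  have h3 := eVariationOn.sum_le (f := φ) (s := univ) (n := 2 * N) hmono (fun _ => mem_univ _)
  refine le_trans (Finset.sum_le_sum_of_subset hN) (le_trans (le_of_eq ?_) h3)
  refine Finset.sum_nbij' (fun n : ℤ => (n + N).toNat) (fun i : ℕ => (i : ℤ) - N) ?_ ?_ ?_ ?_ ?_
  · intro n hn
    rw [Finset.mem_Ico] at hn
    rw [Finset.mem_range]
    omega
  · intro i hi
    rw [Finset.mem_range] at hi
    rw [Finset.mem_Ico]
    omega
  · intro n hn
    rw [Finset.mem_Ico] at hn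
    omega
  · intro i hi
    omega
  · intro n hn
    rw [Finset.mem_Ico] at hn
    rw [edist_eq_enorm_sub]
    have h4 : (((n + N).toNat : ℤ)) - N = n := by omega
    have h5 : (((n + N).toNat + 1 : ℕ) : ℤ) - N = n + 1 := by omega
    simp only [h4, h5, add_zsmul, one_zsmul, add_assoc]

lemma var_pos (φ : ℝ → ℂ) (V : ℝ≥0∞) (hφ : Measurable φ) (hV : eVariationOn φ univ ≤ V)
    {h : ℝ} (hh : 0 < h) :
    ∫⁻ s : ℝ, ‖φ (s + h) - φ s‖ₑ ≤ V * ENNReal.ofReal h := by
  have hm : Measurable (fun s => ‖φ (s + h) - φ s‖ₑ) := by fun_prop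
  have hu : (⋃ n : ℤ, Ioc (n • h) ((n + 1) • h)) = univ := iUnion_Ioc_zsmul hh
  calc ∫⁻ s : ℝ, ‖φ (s + h) - φ s‖ₑ
      = ∫⁻ s in ⋃ n : ℤ, Ioc (n • h) ((n + 1) • h), ‖φ (s + h) - φ s‖ₑ := by
        rw [hu, Measure.restrict_univ]
    _ = ∑' n : ℤ, ∫⁻ s in Ioc (n • h) ((n + 1) • h), ‖φ (s + h) - φ s‖ₑ :=
        lintegral_iUnion (fun n => measurableSet_Ioc) (pairwise_disjoint_Ioc_zsmul h) _
    _ = ∑' n : ℤ, ∫⁻ s in Ioc 0 h, ‖φ (s + n • h + h) - φ (s + n • h)‖ₑ := by
        refine tsum_congr fun n => ?_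
        have h1 : MeasurePreserving (fun s : ℝ => s + n • h) volume volume :=
          measurePreserving_add_right volume (n • h)
        have h2 : (fun s : ℝ => s + n • h) ⁻¹' Ioc (n • h) ((n + 1) • h) = Ioc 0 h := by
          ext s
          simp only [mem_preimage, mem_Ioc, add_zsmul, one_zsmul]
          constructor
          · rintro ⟨a, b⟩
            exact ⟨by linarith, by linarith⟩
          · rintro ⟨a, b⟩
            exact ⟨by linarith, by linarith⟩
        rw [← h2, h1.setLIntegral_comp_preimage measurableSet_Ioc hm]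
    _ = ∫⁻ s in Ioc 0 h, ∑' n : ℤ, ‖φ (s + n • h + h) - φ (s + n • h)‖ₑ := by
        rw [lintegral_tsum]
        intro n
        exact Measurable.aemeasurable (by fun_prop)
    _ ≤ ∫⁻ _s in Ioc 0 h, V := lintegral_mono fun s => (sum_int_le φ hh s).trans hV
    _ = V * ENNReal.ofReal h := by
        rw [setLIntegral_const, Real.volume_Ioc, sub_zero]

theorem var_mod : VarMod := by
  intro φ V hφ hV h
  rcases lt_trichotomy h 0 with hh | hh | hh
  · have h1 := var_pos φ V hφ hV (h := -h) (by linarith)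
    rw [abs_of_neg hh]
    refine le_trans (le_of_eq ?_) h1
    rw [← lintegral_add_right_eq_self (fun s => ‖φ (s + h) - φ s‖ₑ) (-h)]
    refine lintegral_congr fun s => ?_
    rw [neg_add_cancel_right, ← enorm_neg, neg_sub]
  · subst hh
    simp
  · rw [abs_of_pos hh]
    exact var_pos φ V hφ hV hh

end Pool.Agent.TH634.VR
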